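import Pool.Agent.K9h72.NA.Count
import Pool.Agent.K9h72.NA.Digits

/-! # The average N-adic complexity of finite sequences is `n/2 + O(1)` -/

set_option autoImplicit false

namespace Pool.Agent.Results.MP_68df70_lc.AverageComplexity

open Finset Pool.Agent.K9h72.NA

/-- The `N`-adic integer `Σ a_i N^i` equals the fraction `f / g` in lowest terms with `g > 0`:
`g Σ_{i<k} a_i N^i ≡ f` modulo `N^k` for every `k`. -/
def IsFraction (N : ℕ) (a : ℕ → Fin N) (f g : ℤ) : Prop :=
  0 < g ∧ IsCoprime f g ∧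
    ∀ k : ℕ, (N : ℤ) ^ k ∣ g * ∑ i ∈ range k, ((a i : ℕ) : ℤ) * (N : ℤ) ^ i - f

/-- The set of the complexities `log_N max(|f|, |g|)` of all infinite extensions, with rational
value, of a finite sequence. -/
def extComplexities (N n : ℕ) (a : Fin n → Fin N) : Set ℝ :=
  {x | ∃ b : ℕ → Fin N, (∀ i : Fin n, b i = a i) ∧
    ∃ f g : ℤ, IsFraction N b f g ∧ x = Real.logb N ((max |f| |g| : ℤ) : ℝ)}

/-- The `N`-adic complexity of a finite sequence. -/
noncomputable def complexity (N n : ℕ) (a : Fin n → Fin N) : ℝ := sInf (extComplexities N n a)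

/-- The average over all finite sequences of length `n`. -/
noncomputable def average (N n : ℕ) : ℝ := (∑ a : Fin n → Fin N, complexity N n a) / (N : ℝ) ^ n

/-- the value of a finite sequence -/
def val (N n : ℕ) (a : Fin n → Fin N) : ℕ := ∑ i, (a i : ℕ) * N ^ (i : ℕ)

lemma extComplexities_eq (N n : ℕ) (hN : 2 ≤ N) (a : Fin n → Fin N) :
    extComplexities N n a = (fun m : ℕ => Real.logb N (m : ℝ)) '' Sizes N (N ^ n) (val N n a) := by
  have hcast : ∀ f g : ℤ, ((max |f| |g| : ℤ) : ℝ) = ((max f.natAbs g.natAbs : ℕ) : ℝ) := by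
    intro f g
    have : (max |f| |g| : ℤ) = ((max f.natAbs g.natAbs : ℕ) : ℤ) := by push_cast; simp
    rw [this]
    exact Int.cast_natCast _
  ext x
  constructor
  · rintro ⟨b, hb, f, g, ⟨h0, h1, h2⟩, rfl⟩
    refine ⟨max f.natAbs g.natAbs, ⟨f, g, h0, h1, ?_, ?_, rfl⟩, ?_⟩
    · obtain ⟨t, ht⟩ := h2 1
      rw [Finset.sum_range_one, pow_zero, mul_one, pow_one] at ht
      obtain ⟨x, y, hxy⟩ := h1
      refine ⟨x * (b 0 : ℕ) + y, -(x * t), ?_⟩
      linear_combination hxy + x * ht
    · have h3 := h2 n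
      have h4 : ∑ i ∈ range n, ((b i : ℕ) : ℤ) * (N : ℤ) ^ i = ((val N n a : ℕ) : ℤ) := by
        rw [val, Finset.sum_range]
        push_cast
        apply Finset.sum_congr rfl
        intro i _
        rw [hb i]
      rw [h4] at h3
      exact_mod_cast h3
    · simp only
      rw [hcast]
  · rintro ⟨m, ⟨f, g, h0, h1, h2, h3, rfl⟩, rfl⟩
    obtain ⟨b, hb1, hb2⟩ := exists_extension N n hN a f g h2 h3
    refine ⟨b, hb1, f, g, ⟨h0, h1, hb2⟩, ?_⟩
    simp only
    rw [hcast]

lemma isLeast_size (N n : ℕ) (hN : 2 ≤ N) (a : Fin n → Fin N) :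
    IsLeast (extComplexities N n a) (Real.logb N (size N (N ^ n) (val N n a))) := by
  rw [extComplexities_eq N n hN a]
  refine ⟨⟨_, size_mem N (N ^ n) (val N n a), rfl⟩, ?_⟩
  rintro _ ⟨m, hm, rfl⟩
  simp only
  have hN1 : (1 : ℝ) < N := by
    have : 1 < N := by omega
    exact_mod_cast this
  have h1 : size N (N ^ n) (val N n a) ≤ m := Nat.sInf_le hm
  have h2 := size_pos N (N ^ n) (val N n a)
  exact Real.logb_le_logb_of_le hN1 (by exact_mod_cast h2) (by exact_mod_cast h1)

lemma complexity_eq (N n : ℕ) (hN : 2 ≤ N) (a : Fin n → Fin N) :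
    complexity N n a = Real.logb N (size N (N ^ n) (val N n a)) :=
  (isLeast_size N n hN a).csInf_eq

lemma average_eq (N n : ℕ) (hN : 2 ≤ N) :
    average N n = (∑ α ∈ range (N ^ n), Real.log (size N (N ^ n) α)) / (((N ^ n : ℕ) : ℝ) * Real.log N) := by
  have h1 : ∑ a : Fin n → Fin N, complexity N n a
      = ∑ α ∈ range (N ^ n), Real.logb N (size N (N ^ n) α) := by
    rw [Finset.sum_range (fun α => Real.logb N (size N (N ^ n) α))]
    apply Fintype.sum_equiv finFunctionFinEquiv
    intro a
    rw [complexity_eq N n hN a, finFunctionFinEquiv_apply]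
    rfl
  rw [average, h1]
  simp only [Real.logb]
  rw [← Finset.sum_div, div_div]
  push_cast
  rw [mul_comm (Real.log N)]

lemma log_bounds (w : ℕ) (hw : 1 ≤ w) :
    Real.log (2 * (((w : ℝ) + 1) * 2 ^ w)) + Real.log (2 * Real.sqrt 6) ≤ 4 * w ∧
    Real.log (2 * Real.sqrt 3) ≤ 4 * w := by
  have hw' : (1 : ℝ) ≤ w := by exact_mod_cast hw
  have hl2 : Real.log 2 < 0.6931471808 := Real.log_two_lt_d9
  have hl2' : 0 < Real.log 2 := Real.log_pos (by norm_num)
  have h6 : Real.sqrt 6 ≤ 2 ^ 2 := by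
    rw [Real.sqrt_le_left (by norm_num)]; norm_num
  have h3 : Real.sqrt 3 ≤ 2 := by
    rw [Real.sqrt_le_left (by norm_num)]; norm_num
  have h6' : Real.sqrt 6 ≤ 5 / 2 := by
    rw [Real.sqrt_le_left (by norm_num)]; norm_num
  have e1 : Real.log (2 * Real.sqrt 6) ≤ Real.log 5 := by
    apply Real.log_le_log (by positivity)
    linarith
  have e2 : Real.log (2 * Real.sqrt 3) ≤ 2 * Real.log 2 := by
    have : Real.log (2 * Real.sqrt 3) ≤ Real.log ((2 : ℝ) ^ 2) := by
      apply Real.log_le_log (by positivity)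
      linarith
    rw [Real.log_pow] at this
    exact_mod_cast this
  have e5 : Real.log 5 ≤ 5 / 2 * Real.log 2 := by
    have h : Real.log ((5 : ℝ) ^ 2) ≤ Real.log ((2 : ℝ) ^ 5) := by
      apply Real.log_le_log (by norm_num)
      norm_num
    rw [Real.log_pow, Real.log_pow] at h
    push_cast at h
    linarith
  have e3 : Real.log (2 * (((w : ℝ) + 1) * 2 ^ w)) = Real.log 2 + (Real.log ((w : ℝ) + 1) + w * Real.log 2) := by
    rw [Real.log_mul (by norm_num) (by positivity), Real.log_mul (by positivity) (by positivity), Real.log_pow]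
  have e4 : Real.log ((w : ℝ) + 1) ≤ Real.log 2 + (w - 1) / 2 := by
    have h := Real.log_le_sub_one_of_pos (show (0 : ℝ) < ((w : ℝ) + 1) / 2 by positivity)
    rw [Real.log_div (by positivity) (by norm_num)] at h
    linarith
  constructor
  · rw [e3]
    nlinarith
  · nlinarith

/-- For every base `N ≥ 2` and every length `n`: the minimum in the definition of the complexity
of a finite sequence is attained, and the average complexity differs from `n / 2` by at most
`4 ω(N) / log N`, where `ω(N)` is the number of prime divisors of `N`. -/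
theorem result (N : ℕ) (hN : 2 ≤ N) (n : ℕ) :
    (∀ a : Fin n → Fin N, IsLeast (extComplexities N n a) (complexity N n a)) ∧
    |average N n - (n : ℝ) / 2| ≤ 4 * (N.primeFactors.card : ℝ) / Real.log N := by
  refine ⟨fun a => by rw [complexity_eq N n hN a]; exact isLeast_size N n hN a, ?_⟩
  have hw : 1 ≤ N.primeFactors.card := by
    rw [Nat.one_le_iff_ne_zero, Finset.card_ne_zero]
    exact Nat.nonempty_primeFactors.2 (by omega)
  obtain ⟨hb1, hb2⟩ := log_bounds N.primeFactors.card hw
  have hN1 : (1 : ℝ) < N := by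
    have : 1 < N := by omega
    exact_mod_cast this
  have hlog : 0 < Real.log N := Real.log_pos hN1
  have hM : (0 : ℝ) < ((N ^ n : ℕ) : ℝ) := by
    have : 0 < N ^ n := Nat.pow_pos (by omega)
    exact_mod_cast this
  have h1 := sum_log_size_ge N n hN
  have h2 := sum_log_size_le N n hN
  rw [average_eq N n hN]
  set S := ∑ α ∈ range (N ^ n), Real.log (size N (N ^ n) α) with hS
  set M : ℝ := ((N ^ n : ℕ) : ℝ) with hMdef
  set L := Real.log N with hL
  have hdiff : S / (M * L) - n / 2 = (S - M * (1 / 2 * (n * L))) / (M * L) := by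
    field_simp
  rw [hdiff, abs_div, abs_of_pos (mul_pos hM hlog), div_le_div_iff₀ (mul_pos hM hlog) hlog]
  have h3 : |S - M * (1 / 2 * (n * L))| ≤ M * (4 * (N.primeFactors.card : ℝ)) := by
    rw [abs_le]
    constructor
    · nlinarith
    · nlinarith
  calc |S - M * (1 / 2 * (n * L))| * L ≤ M * (4 * (N.primeFactors.card : ℝ)) * L := by gcongr
    _ = 4 * (N.primeFactors.card : ℝ) * (M * L) := by ring

end Pool.Agent.Results.MP_68df70_lc.AverageComplexity
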